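import Mathlib
import Pool.Agent.Q92.Domin
import Pool.Agent.Q92.BaryFormula

/-!
# Affine Baire-one maps into the unit ball of a Banach space with the BAP
-/

set_option linter.unusedSectionVars false

namespace Pool.Agent.Results.MP_8da836_an.BallBAP

open MeasureTheory Filter Topology Set Q92.Bary Q92.Domin

section Defs

variable {V : Type*} [AddCommGroup V] [Module ℝ V] [TopologicalSpace V]
variable {E : Type*} [NormedAddCommGroup E] [NormedSpace ℝ E]

/-- `f : X → E` is affine -/
def IsAffine {X : Set V} (f : X → E) : Prop :=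
  ∀ x y z : X, ∀ t : ℝ, 0 ≤ t → t ≤ 1 → (z : V) = t • (x : V) + (1 - t) • (y : V) →
    f z = t • f x + (1 - t) • f y

/-- maps `X → L` which are pointwise limits of continuous maps `X → L` -/
def C1 (X : Set V) (L : Set E) : Set (X → E) :=
  {f | (∀ x, f x ∈ L) ∧ ∃ g : ℕ → X → E, (∀ n, Continuous (g n)) ∧ (∀ n x, g n x ∈ L) ∧
    ∀ x, Tendsto (fun n => g n x) atTop (𝓝 (f x))}

/-- maps `X → L` which are pointwise limits of continuous affine maps `X → L` -/
def A1 (X : Set V) (L : Set E) : Set (X → E) :=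
  {f | (∀ x, f x ∈ L) ∧ ∃ g : ℕ → X → E, (∀ n, Continuous (g n)) ∧ (∀ n, IsAffine (g n)) ∧
    (∀ n x, g n x ∈ L) ∧ ∀ x, Tendsto (fun n => g n x) atTop (𝓝 (f x))}

end Defs

/-- the bounded approximation property -/
def BAP (𝕜 E : Type*) [NontriviallyNormedField 𝕜] [NormedAddCommGroup E] [NormedSpace 𝕜 E] :
    Prop :=
  ∃ lam : ℝ, 1 ≤ lam ∧ ∀ K : Set E, IsCompact K → ∀ ε : ℝ, 0 < ε →
    ∃ T : E →L[𝕜] E, FiniteDimensional 𝕜 (LinearMap.range T.toLinearMap) ∧ ‖T‖ ≤ lam ∧
      ∀ x ∈ K, ‖T x - x‖ < ε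

section Main

variable {V : Type*} [AddCommGroup V] [Module ℝ V] [TopologicalSpace V]
  [IsTopologicalAddGroup V] [ContinuousSMul ℝ V] [LocallyConvexSpace ℝ V] [T2Space V]
variable {X : Set V}
variable {E : Type*} [NormedAddCommGroup E] [NormedSpace ℝ E]

lemma scalar_zero [CompactSpace X] (hX : Convex ℝ X) (L : C(X, ℝ) →L[ℝ] ℝ)
    (hL : ∀ a : C(X, ℝ), AffOn (fun x => a x) → L a = 0) {f : X → ℝ} (hf : AffOn f)
    {u : ℕ → C(X, ℝ)} {M : ℝ} (hu : ∀ n x, |u n x| ≤ M)
    (hlim : ∀ x, Tendsto (fun n => u n x) atTop (𝓝 (f x))) :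
    Tendsto (fun n => L (u n)) atTop (𝓝 0) := by
  let _ : MeasurableSpace X := borel X
  have _ : BorelSpace X := ⟨rfl⟩
  obtain ⟨μ, ν, ⟨hμ1, hμ2⟩, ⟨hν1, hν2⟩, hμν⟩ := exists_pair L
  have heq : ∀ a : C(X, ℝ), AffOn (fun x => a x) → ∫ x, a x ∂μ = ∫ x, a x ∂ν := by
    intro a ha
    have := hμν a
    rw [hL a ha] at this
    linarith
  have hmass : μ.real univ = ν.real univ := by
    have := heq (ContinuousMap.const X 1) (fun x y z t _ _ _ => by simp)
    simpa using this
  have hell : ∀ ℓ : StrongDual ℝ V, ∫ x : X, ℓ x ∂μ = ∫ x : X, ℓ x ∂ν := by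
    intro ℓ
    exact heq ⟨fun x : X => ℓ (x : V), ℓ.continuous.comp continuous_subtype_val⟩
      (fun x y z t _ _ hz => by
        change ℓ (z : V) = t • ℓ (x : V) + (1 - t) • ℓ (y : V)
        rw [hz, map_add, map_smul, map_smul])
  have hFv : Fv f μ = Fv f ν := by
    rcases eq_or_ne μ 0 with h0 | h0
    · have h1 : ν = 0 := by
        by_contra h
        have h2 := real_pos_of_ne h
        rw [← hmass, h0] at h2
        simp at h2
      rw [h0, h1]
    · obtain ⟨r, hr⟩ := exists_isBar hX μ h0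
      have hr' : IsBar ν r := by
        intro ℓ
        rw [← hmass, hr ℓ, hell ℓ]
      rw [Fv_eq f hr, Fv_eq f hr', hmass]
  rw [bary_eq hX μ hf hu hlim, bary_eq hX ν hf hu hlim] at hFv
  have hconv : ∀ κ : Measure X, IsFiniteMeasure κ →
      Tendsto (fun n => ∫ x, u n x ∂κ) atTop (𝓝 (∫ x, f x ∂κ)) := by
    intro κ hκ
    apply tendsto_integral_of_dominated_convergence (fun _ => M)
    · intro n
      exact (u n).continuous.measurable.aestronglyMeasurable
    · exact integrable_const _
    · exact fun n => Eventually.of_forall fun x => by rw [Real.norm_eq_abs]; exact hu n x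
    · exact Eventually.of_forall hlim
  have h1 := (hconv μ hμ1).sub (hconv ν hν1)
  rw [hFv, sub_self] at h1
  have h2 := h1.div_const 2
  rw [zero_div] at h2
  refine h2.congr fun n => ?_
  rw [← hμν (u n)]
  ring

lemma vector_zero [CompactSpace X] (hX : Convex ℝ X) (hE : BAP ℝ E) (Λ : C(X, E) →L[ℝ] ℝ)
    (hL : ∀ a : C(X, E), IsAffine (fun x => a x) → Λ a = 0) {f : X → E} (hf : IsAffine f)
    {h : ℕ → C(X, E)} (hh : ∀ n x, ‖h n x‖ ≤ 1)
    (hlim : ∀ x, Tendsto (fun n => h n x) atTop (𝓝 (f x))) :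
    Tendsto (fun n => Λ (h n)) atTop (𝓝 0) := by
  let _ : MeasurableSpace X := borel X
  have _ : BorelSpace X := ⟨rfl⟩
  obtain ⟨ν, hν1, hν2, hdom⟩ := exists_dominating Λ
  obtain ⟨lam, hlam, hT⟩ := hE
  have hfn : ∀ x, ‖f x‖ ≤ 1 := fun x =>
    le_of_tendsto ((continuous_norm.tendsto _).comp (hlim x)) (Eventually.of_forall fun n => hh n x)
  -- the operators
  have hK : ∀ k : ℕ, IsCompact (⋃ n ∈ Finset.range (k + 1), range (h n)) := fun k =>
    (Finset.range (k + 1)).isCompact_biUnion fun n _ => isCompact_range (h n).continuous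
  choose T hTfin hTn hTK using fun k : ℕ => hT _ (hK k) (1 / ((k : ℝ) + 1)) (by positivity)
  have hTf : ∀ x, Tendsto (fun k => ‖f x - T k (f x)‖) atTop (𝓝 0) := by
    intro x
    rw [Metric.tendsto_atTop]
    intro ε hε
    obtain ⟨m, hm⟩ : ∃ m, ‖f x - h m x‖ < ε / (2 * (1 + lam)) := by
      have h1 := (Metric.tendsto_atTop.mp (hlim x)) (ε / (2 * (1 + lam))) (by positivity)
      obtain ⟨m, hm⟩ := h1
      refine ⟨m, ?_⟩
      have := hm m le_rfl
      rwa [dist_eq_norm, norm_sub_rev] at this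
    obtain ⟨k₀, hk₀⟩ := exists_nat_one_div_lt (show (0 : ℝ) < ε / 2 by positivity)
    refine ⟨max m k₀, fun k hk => ?_⟩
    rw [Real.dist_eq, sub_zero, abs_of_nonneg (norm_nonneg _)]
    have h2 : ‖T k (h m x) - h m x‖ < 1 / ((k : ℝ) + 1) := by
      apply hTK k
      simp only [mem_iUnion, Finset.mem_range, exists_prop]
      exact ⟨m, by have := le_max_left m k₀; omega, x, rfl⟩
    have h3 : (1 : ℝ) / (k + 1) ≤ 1 / (k₀ + 1) := by
      apply one_div_le_one_div_of_le (by positivity)
      have : (k₀ : ℝ) ≤ k := by exact_mod_cast (le_max_right m k₀).trans hk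
      linarith
    have h4 : f x - T k (f x) = (f x - h m x) - T k (f x - h m x) - (T k (h m x) - h m x) := by
      rw [map_sub]; abel
    have h5 : ‖T k (f x - h m x)‖ ≤ lam * ‖f x - h m x‖ :=
      ((T k).le_opNorm _).trans (mul_le_mul_of_nonneg_right (hTn k) (norm_nonneg _))
    have h6 : (1 + lam) * ‖f x - h m x‖ < ε / 2 := by
      have : (1 + lam) * (ε / (2 * (1 + lam))) = ε / 2 := by
        have : (1 + lam) ≠ 0 := by positivity
        field_simp
      rw [← this]
      exact mul_lt_mul_of_pos_left hm (by positivity)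
    rw [h4]
    calc ‖(f x - h m x) - T k (f x - h m x) - (T k (h m x) - h m x)‖
        ≤ ‖(f x - h m x) - T k (f x - h m x)‖ + ‖T k (h m x) - h m x‖ := norm_sub_le _ _
      _ ≤ ‖f x - h m x‖ + ‖T k (f x - h m x)‖ + ‖T k (h m x) - h m x‖ := by
          gcongr; exact norm_sub_le _ _
      _ < ε := by linarith
  -- the composed maps
  let Th : ℕ → ℕ → C(X, E) := fun k n => ⟨fun x => T k (h n x), (T k).continuous.comp (h n).continuous⟩
  have hA : ∀ k, Tendsto (fun n => Λ (Th k n)) atTop (𝓝 0) := by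
    intro k
    have := hTfin k
    set R := LinearMap.range (T k).toLinearMap with hR
    let b := Module.finBasis ℝ R
    let φ : Fin (Module.finrank ℝ R) → (E →L[ℝ] ℝ) := fun j =>
      (LinearMap.toContinuousLinearMap (b.coord j)).comp
        ((T k).codRestrict R (fun x => LinearMap.mem_range_self _ x))
    have hφ : ∀ y, T k y = ∑ j, φ j y • (b j : E) := by
      intro y
      have h1 := congrArg (Subtype.val) (b.sum_repr ((T k).codRestrict R
        (fun x => LinearMap.mem_range_self _ x) y))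
      rw [Submodule.coe_sum] at h1
      rw [show T k y = (((T k).codRestrict R (fun x => LinearMap.mem_range_self _ x) y : R) : E)
        from rfl, ← h1]
      rfl
    let S : E → (C(X, ℝ) →L[ℝ] C(X, E)) := fun e =>
      (ContinuousLinearMap.toSpanSingleton ℝ e).compLeftContinuous ℝ X
    let u : Fin (Module.finrank ℝ R) → ℕ → C(X, ℝ) := fun j n =>
      ⟨fun x => φ j (h n x), (φ j).continuous.comp (h n).continuous⟩
    have hsum : ∀ n, Λ (Th k n) = ∑ j, (Λ.comp (S (b j : E))) (u j n) := by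
      intro n
      have h1 : Th k n = ∑ j, S (b j : E) (u j n) := by
        ext x
        rw [ContinuousMap.sum_apply]
        exact hφ (h n x)
      rw [h1, map_sum]
      rfl
    have hj : ∀ j, Tendsto (fun n => (Λ.comp (S (b j : E))) (u j n)) atTop (𝓝 0) := by
      intro j
      refine scalar_zero hX (Λ.comp (S (b j : E))) ?_ (f := fun x => φ j (f x)) ?_
        (M := ‖φ j‖) ?_ ?_
      · intro a ha
        apply hL
        intro x y z t h0 h1 hz
        change a z • (b j : E) = t • (a x • (b j : E)) + (1 - t) • (a y • (b j : E))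
        have := ha x y z t h0 h1 hz
        simp only at this
        rw [this, add_smul, smul_smul, smul_smul]
        rfl
      · intro x y z t h0 h1 hz
        change φ j (f z) = t • φ j (f x) + (1 - t) • φ j (f y)
        rw [hf x y z t h0 h1 hz, map_add, map_smul, map_smul]
      · intro n x
        have := (φ j).le_opNorm (h n x)
        rw [Real.norm_eq_abs] at this
        have h1 := hh n x
        have h2 := norm_nonneg (φ j)
        calc |u j n x| ≤ ‖φ j‖ * ‖h n x‖ := this
          _ ≤ ‖φ j‖ := by nlinarith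
      · intro x
        exact ((φ j).continuous.tendsto _).comp (hlim x)
    simp only [hsum]
    have := tendsto_finsetSum Finset.univ (fun j _ => hj j)
    simpa using this
  -- approximation
  have hcontn : ∀ k n, Continuous fun x : X => ‖h n x - T k (h n x)‖ := fun k n =>
    ((h n).continuous.sub ((T k).continuous.comp (h n).continuous)).norm
  have hptk : ∀ k x, Tendsto (fun n => ‖h n x - T k (h n x)‖) atTop (𝓝 ‖f x - T k (f x)‖) :=
    fun k x => ((hlim x).sub (((T k).continuous.tendsto _).comp (hlim x))).norm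
  have hbd : ∀ k (y : E), ‖y‖ ≤ 1 → ‖y - T k y‖ ≤ 1 + lam := by
    intro k y hy
    have h1 := norm_sub_le y (T k y)
    have h2 := (T k).le_opNorm y
    have h3 : ‖T k‖ * ‖y‖ ≤ lam * 1 := by
      apply mul_le_mul (hTn k) hy (norm_nonneg _) (by linarith)
    linarith
  have hmeas : ∀ k, Measurable fun x : X => ‖f x - T k (f x)‖ := fun k =>
    measurable_of_tendsto_metrizable (fun n => (hcontn k n).measurable)
      (tendsto_pi_nhds.mpr (hptk k))
  have hB : ∀ k, Tendsto (fun n => ∫ x, ‖h n x - T k (h n x)‖ ∂ν) atTop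
      (𝓝 (∫ x, ‖f x - T k (f x)‖ ∂ν)) := by
    intro k
    apply tendsto_integral_of_dominated_convergence (fun _ => 1 + lam)
    · exact fun n => (hcontn k n).measurable.aestronglyMeasurable
    · exact integrable_const _
    · exact fun n => Eventually.of_forall fun x => by
        rw [norm_norm]; exact hbd k _ (hh n x)
    · exact Eventually.of_forall (hptk k)
  have hC : Tendsto (fun k => ∫ x, ‖f x - T k (f x)‖ ∂ν) atTop (𝓝 0) := by
    have := tendsto_integral_of_dominated_convergence (μ := ν)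
      (F := fun k (x : X) => ‖f x - T k (f x)‖) (f := fun _ => (0 : ℝ)) (fun _ => 1 + lam)
      (fun k => (hmeas k).aestronglyMeasurable) (integrable_const _)
      (fun k => Eventually.of_forall fun x => by
        rw [norm_norm]; exact hbd k _ (hfn x))
      (Eventually.of_forall hTf)
    simpa using this
  rw [Metric.tendsto_atTop]
  intro ε hε
  obtain ⟨k, hk⟩ := (hC.eventually_lt_const (show (0 : ℝ) < ε / 3 by positivity)).exists
  have e1 := (hB k).eventually_lt_const (show _ < ε / 3 from hk)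
  have e2 : ∀ᶠ n in atTop, |Λ (Th k n)| < ε / 3 := by
    have := (hA k).abs
    rw [abs_zero] at this
    exact this.eventually_lt_const (by positivity)
  obtain ⟨N, hN⟩ := (e1.and e2).exists_forall_of_atTop
  refine ⟨N, fun n hn => ?_⟩
  obtain ⟨h1, h2⟩ := hN n hn
  rw [Real.dist_eq, sub_zero]
  have h3 := hdom (h n - Th k n)
  have h4 : ∫ x, ‖(h n - Th k n) x‖ ∂ν = ∫ x, ‖h n x - T k (h n x)‖ ∂ν := rfl
  rw [h4, map_sub] at h3
  have h5 : |Λ (h n)| ≤ |Λ (h n) - Λ (Th k n)| + |Λ (Th k n)| := by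
    have := abs_add_le (Λ (h n) - Λ (Th k n)) (Λ (Th k n))
    rwa [sub_add_cancel] at this
  linarith

/-- the Mazur step -/
lemma mazur_step [CompactSpace X] (hX : Convex ℝ X) (hE : BAP ℝ E) {f : X → E}
    (hf : IsAffine f) {h : ℕ → C(X, E)} (hh : ∀ n x, ‖h n x‖ ≤ 1)
    (hlim : ∀ x, Tendsto (fun n => h n x) atTop (𝓝 (f x))) (N : ℕ) :
    ∃ s ∈ convexHull ℝ (h '' {n | N ≤ n}), ∃ a : C(X, E), IsAffine (fun x => a x) ∧
      ‖s - a‖ < 1 / ((N : ℝ) + 1) := by
  by_contra hcon
  push Not at hcon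
  set S : Set C(X, E) := convexHull ℝ (h '' {n | N ≤ n}) with hS
  set D : Set C(X, E) := {g | ∃ s ∈ S, ∃ a : C(X, E), IsAffine (fun x => a x) ∧ g = s - a} with hD
  have hDc : Convex ℝ D := by
    rintro g ⟨s, hs, a, ha, rfl⟩ g' ⟨s', hs', a', ha', rfl⟩ p q hp hq hpq
    refine ⟨p • s + q • s', (convex_convexHull ℝ _) hs hs' hp hq hpq, p • a + q • a', ?_, ?_⟩
    · intro x y z t h0 h1 hz
      change p • a z + q • a' z = t • (p • a x + q • a' x) + (1 - t) • (p • a y + q • a' y)
      have e1 := ha x y z t h0 h1 hz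
      have e2 := ha' x y z t h0 h1 hz
      simp only at e1 e2
      rw [e1, e2]
      module
    · module
  have h0 : (0 : C(X, E)) ∉ closure D := by
    intro h0
    obtain ⟨g, ⟨s, hs, a, ha, rfl⟩, hg⟩ := Metric.mem_closure_iff.mp h0
      (1 / ((N : ℝ) + 1)) (by positivity)
    rw [dist_comm, dist_zero_right] at hg
    exact absurd hg (not_lt.mpr (hcon s hs a ha))
  obtain ⟨Λ, u, hu, hΛ⟩ := geometric_hahn_banach_point_closed hDc.closure isClosed_closure h0
  rw [map_zero] at hu
  have hmem : ∀ n, N ≤ n → ∀ a : C(X, E), IsAffine (fun x => a x) → u < Λ (h n) - Λ a := by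
    intro n hn a ha
    rw [← map_sub]
    exact hΛ _ (subset_closure ⟨h n, subset_convexHull ℝ _ ⟨n, hn, rfl⟩, a, ha, rfl⟩)
  have hzero : ∀ a : C(X, E), IsAffine (fun x => a x) → Λ a = 0 := by
    intro a ha
    by_contra hne
    have := hmem N le_rfl ((Λ (h N) / Λ a) • a) (by
      intro x y z t h0 h1 hz
      change (Λ (h N) / Λ a) • a z = t • ((Λ (h N) / Λ a) • a x)
        + (1 - t) • ((Λ (h N) / Λ a) • a y)
      have e1 := ha x y z t h0 h1 hz
      simp only at e1
      rw [e1]
      module)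
    rw [map_smul, smul_eq_mul, div_mul_cancel₀ _ hne, sub_self] at this
    linarith
  have hlimΛ := vector_zero hX hE Λ hzero hf hh hlim
  have h1 : u ≤ 0 := by
    apply ge_of_tendsto hlimΛ
    filter_upwards [eventually_ge_atTop N] with n hn
    have := hmem n hn 0 (by intro x y z t _ _ _; simp)
    rw [map_zero, sub_zero] at this
    exact this.le
  linarith

theorem main_real (hXc : IsCompact X) (hX : Convex ℝ X) (hE : BAP ℝ E) {f : X → E}
    (hf : IsAffine f) (hfC : f ∈ C1 X (Metric.closedBall (0 : E) 1)) :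
    f ∈ A1 X (Metric.closedBall (0 : E) 1) := by
  have : CompactSpace X := isCompact_iff_compactSpace.mp hXc
  obtain ⟨hfb, g, hgc, hgb, hlim⟩ := hfC
  let h : ℕ → C(X, E) := fun n => ⟨g n, hgc n⟩
  have hh : ∀ n x, ‖h n x‖ ≤ 1 := fun n x => by
    have := hgb n x
    rwa [mem_closedBall_zero_iff] at this
  choose s hs a ha hsa using mazur_step hX hE hf hh hlim
  have hsb : ∀ N x, ‖s N x‖ ≤ 1 := by
    intro N x
    have hsub : convexHull ℝ (h '' {n | N ≤ n}) ⊆ {c : C(X, E) | ‖c x‖ ≤ 1} := by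
      apply convexHull_min
      · rintro _ ⟨n, -, rfl⟩
        exact hh n x
      · intro c hc c' hc' p q hp hq hpq
        change ‖p • c x + q • c' x‖ ≤ 1
        calc ‖p • c x + q • c' x‖ ≤ ‖p • c x‖ + ‖q • c' x‖ := norm_add_le _ _
          _ = p * ‖c x‖ + q * ‖c' x‖ := by
            rw [norm_smul, norm_smul, Real.norm_eq_abs, Real.norm_eq_abs, abs_of_nonneg hp,
              abs_of_nonneg hq]
          _ ≤ p * 1 + q * 1 := by gcongr <;> assumption
          _ = 1 := by linarith
    exact hsub (hs N)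
  have hsax : ∀ N x, ‖s N x - a N x‖ < 1 / ((N : ℝ) + 1) := fun N x =>
    lt_of_le_of_lt (ContinuousMap.norm_coe_le_norm (s N - a N) x) (hsa N)
  have hslim : ∀ x, Tendsto (fun N => s N x) atTop (𝓝 (f x)) := by
    intro x
    rw [Metric.tendsto_atTop]
    intro ε hε
    obtain ⟨N₀, hN₀⟩ := Metric.tendsto_atTop.mp (hlim x) (ε / 2) (by positivity)
    refine ⟨N₀, fun N hN => ?_⟩
    have hsub : convexHull ℝ (h '' {n | N ≤ n}) ⊆ {c : C(X, E) | c x ∈ Metric.ball (f x) ε} := by
      apply convexHull_min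
      · rintro _ ⟨n, hn, rfl⟩
        have := hN₀ n (hN.trans hn)
        change dist (h n x) (f x) < ε
        exact lt_trans this (by linarith)
      · intro c hc c' hc' p q hp hq hpq
        exact (convex_ball (f x) ε) hc hc' hp hq hpq
    exact hsub (hs N)
  have hinv : Tendsto (fun N : ℕ => 1 / ((N : ℝ) + 1)) atTop (𝓝 0) :=
    tendsto_one_div_add_atTop_nhds_zero_nat
  have halim : ∀ x, Tendsto (fun N => a N x) atTop (𝓝 (f x)) := by
    intro x
    have h1 : Tendsto (fun N => s N x - a N x) atTop (𝓝 0) := by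
      apply squeeze_zero_norm (fun N => (hsax N x).le) hinv
    have h2 := (hslim x).sub h1
    simpa using h2
  refine ⟨hfb, fun N x => (1 + 1 / ((N : ℝ) + 1))⁻¹ • a N x, fun N => ?_, fun N => ?_,
    fun N x => ?_, fun x => ?_⟩
  · exact (a N).continuous.const_smul _
  · intro x y z t h0 h1 hz
    have e1 := ha N x y z t h0 h1 hz
    simp only at e1
    simp only
    rw [e1]
    module
  · rw [mem_closedBall_zero_iff, norm_smul, norm_inv, Real.norm_eq_abs,
      abs_of_pos (by positivity), inv_mul_le_iff₀ (by positivity), mul_one]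
    have h1 := hsax N x
    have h2 := hsb N x
    have h3 : ‖a N x‖ ≤ ‖s N x‖ + ‖s N x - a N x‖ := by
      have := norm_sub_le (s N x) (s N x - a N x)
      rwa [sub_sub_cancel] at this
    linarith
  · have h1 : Tendsto (fun N : ℕ => (1 + 1 / ((N : ℝ) + 1))⁻¹) atTop (𝓝 1) := by
      have := (hinv.const_add 1).inv₀ (by norm_num)
      simpa using this
    have h2 := h1.smul (halim x)
    rwa [one_smul] at h2

end Main

/-- **Theorem.** Let `X` be a nonempty compact convex subset of a Hausdorff locally convex space,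
and `E` a real or complex Banach space with the bounded approximation property.  Then every
affine map `f ∈ C₁(X, B_E)` belongs to `A₁(X, B_E)`. -/
theorem result {V : Type*} [AddCommGroup V] [Module ℝ V] [TopologicalSpace V]
    [IsTopologicalAddGroup V] [ContinuousSMul ℝ V] [LocallyConvexSpace ℝ V] [T2Space V]
    (X : Set V) (_hne : X.Nonempty) (hXc : IsCompact X) (hX : Convex ℝ X)
    {𝕜 : Type*} [RCLike 𝕜] {E : Type*} [NormedAddCommGroup E] [NormedSpace 𝕜 E]
    [NormedSpace ℝ E] [IsScalarTower ℝ 𝕜 E] [CompleteSpace E] (hE : BAP 𝕜 E) (f : X → E)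
    (hf : IsAffine f) (hfC : f ∈ C1 X (Metric.closedBall (0 : E) 1)) :
    f ∈ A1 X (Metric.closedBall (0 : E) 1) := by
  refine main_real hXc hX ?_ hf hfC
  obtain ⟨lam, hlam, hT⟩ := hE
  refine ⟨lam, hlam, fun K hK ε hε => ?_⟩
  obtain ⟨T, hT1, hT2, hT3⟩ := hT K hK ε hε
  refine ⟨T.restrictScalars ℝ, ?_, ?_, hT3⟩
  · have h1 : Module.Finite ℝ (LinearMap.range T.toLinearMap) :=
      Module.Finite.trans 𝕜 _
    exact h1
  · rw [ContinuousLinearMap.norm_restrictScalars]
    exact hT2

end Pool.Agent.Results.MP_8da836_an.BallBAP
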